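import Pool.Agent.H59.L.S8.W695.KH.Defs

/-!
# Project KH: the potential of a convex body
-/

set_option autoImplicit false

namespace Pool.Agent.W762.KH

open MeasureTheory Set Filter Topology
open scoped ENNReal InnerProductSpace Pointwise
open Pool.Agent.W695.KH

variable {κ : Type} [Fintype κ] {D : Set (Eu κ)}

/-- nearest point map -/
structure NP (D : Set (Eu κ)) (P : Eu κ → Eu κ) : Prop where
  mem : ∀ x, P x ∈ D
  dist : ∀ x, Metric.infDist x D = ‖x - P x‖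
  inn : ∀ x, ∀ z ∈ D, ⟪x - P x, z - P x⟫_ℝ ≤ 0

theorem exists_np (hc : IsCompact D) (hconv : Convex ℝ D) (hne : D.Nonempty) :
    ∃ P : Eu κ → Eu κ, NP D P := by
  have h1 : ∀ x : Eu κ, ∃ y ∈ D, Metric.infDist x D = dist x y := fun x =>
    hc.exists_infDist_eq_dist hne x
  choose P hP hPd using h1
  refine ⟨P, hP, fun x => by rw [hPd, dist_eq_norm], fun x => ?_⟩
  have h2 : ‖x - P x‖ = ⨅ w : D, ‖x - w‖ := by
    rw [← dist_eq_norm, ← hPd, Metric.infDist_eq_iInf]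
    simp only [dist_eq_norm]
  exact (norm_eq_iInf_iff_real_inner_le_zero hconv (hP x)).1 h2

variable {P : Eu κ → Eu κ}

theorem firm (h : NP D P) (x y : Eu κ) : ‖P x - P y‖ ^ 2 ≤ ⟪x - y, P x - P y⟫_ℝ := by
  have h1 := h.inn x (P y) (h.mem y)
  have h2 := h.inn y (P x) (h.mem x)
  have e1 : ⟪x - P x, P y - P x⟫_ℝ = -⟪x - P x, P x - P y⟫_ℝ := by
    rw [← inner_neg_right, neg_sub]
  have e2 : ⟪x - P x, P x - P y⟫_ℝ - ⟪y - P y, P x - P y⟫_ℝ =
      ⟪x - y, P x - P y⟫_ℝ - ⟪P x - P y, P x - P y⟫_ℝ := by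
    rw [← inner_sub_left, ← inner_sub_left]
    congr 1
    abel
  rw [real_inner_self_eq_norm_sq] at e2
  linarith

theorem lipP (h : NP D P) (x y : Eu κ) : ‖P x - P y‖ ≤ ‖x - y‖ := by
  have h1 := firm h x y
  have h2 := real_inner_le_norm (x - y) (P x - P y)
  by_contra hcon
  push Not at hcon
  have h3 : 0 ≤ ‖x - y‖ := norm_nonneg _
  nlinarith

theorem lipQ (h : NP D P) (x y : Eu κ) : ‖(x - P x) - (y - P y)‖ ≤ ‖x - y‖ := by
  have h1 := firm h x y
  have e : (x - P x) - (y - P y) = (x - y) - (P x - P y) := by abel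
  rw [e]
  have h2 := norm_sub_sq_real (x - y) (P x - P y)
  have h3 : ‖(x - y) - (P x - P y)‖ ^ 2 ≤ ‖x - y‖ ^ 2 := by
    have := sq_nonneg ‖P x - P y‖
    linarith
  exact (pow_le_pow_iff_left₀ (norm_nonneg _) (norm_nonneg _) two_ne_zero).1 h3

theorem dist_le (h : NP D P) (x : Eu κ) {z : Eu κ} (hz : z ∈ D) : ‖x - P x‖ ≤ ‖x - z‖ := by
  rw [← h.dist, ← dist_eq_norm]
  exact Metric.infDist_le_dist_of_mem hz

theorem d2_bound (h : NP D P) (x y : Eu κ) :
    |‖y - P y‖ ^ 2 - ‖x - P x‖ ^ 2 - 2 * ⟪x - P x, y - x⟫_ℝ| ≤ ‖y - x‖ ^ 2 := by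
  have h1 : ‖y - P y‖ ^ 2 ≤ ‖y - x‖ ^ 2 + 2 * ⟪x - P x, y - x⟫_ℝ + ‖x - P x‖ ^ 2 := by
    have h2 : ‖y - P y‖ ^ 2 ≤ ‖y - P x‖ ^ 2 :=
      pow_le_pow_left₀ (norm_nonneg _) (dist_le h y (h.mem x)) 2
    have e : y - P x = (y - x) + (x - P x) := by abel
    rw [e, norm_add_sq_real, real_inner_comm] at h2
    exact h2
  have h3 : ‖x - P x‖ ^ 2 ≤ ‖y - x‖ ^ 2 - 2 * ⟪y - P y, y - x⟫_ℝ + ‖y - P y‖ ^ 2 := by
    have h2 : ‖x - P x‖ ^ 2 ≤ ‖x - P y‖ ^ 2 :=
      pow_le_pow_left₀ (norm_nonneg _) (dist_le h x (h.mem y)) 2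
    have e : x - P y = (y - P y) - (y - x) := by abel
    rw [e, norm_sub_sq_real (y - P y) (y - x)] at h2
    linarith
  have h4 : 0 ≤ ⟪y - P y, y - x⟫_ℝ - ⟪x - P x, y - x⟫_ℝ := by
    rw [← inner_sub_left]
    have e : (y - P y) - (x - P x) = (y - x) - (P y - P x) := by abel
    rw [e, inner_sub_left, real_inner_self_eq_norm_sq]
    have h5 := real_inner_le_norm (P y - P x) (y - x)
    have h6 := lipP h y x
    have h7 : 0 ≤ ‖y - x‖ := norm_nonneg _
    nlinarith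
  rw [abs_le]
  constructor <;> linarith

theorem gauss_int (c : ℝ) (hc : 0 < c) : Integrable fun x : Eu κ => Real.exp (-(c * ‖x‖ ^ 2)) := by
  have h := GaussianFourier.integrable_cexp_neg_mul_sq_norm_add (V := Eu κ) (b := (c : ℂ))
    (by simpa using hc) 0 0
  have h2 := h.norm
  refine h2.congr (Eventually.of_forall fun x => ?_)
  simp only [zero_mul, add_zero, Complex.norm_exp]
  congr 1
  have : (-(c : ℂ) * (‖x‖ : ℂ) ^ 2) = ((-(c * ‖x‖ ^ 2) : ℝ) : ℂ) := by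
    push_cast
    ring
  rw [this, Complex.ofReal_re]

theorem t_proj : S_proj := by
  intro κ _ D hc hconv hne A hA
  obtain ⟨P, h⟩ := exists_np hc hconv hne
  obtain ⟨R, hR⟩ := hc.isBounded.exists_norm_le
  set Q : Eu κ → Eu κ := fun x => x - P x with hQ
  have hQd : ∀ x, Metric.infDist x D = ‖Q x‖ := h.dist
  have hQlip : LipschitzWith 1 Q := by
    refine LipschitzWith.of_dist_le_mul fun x y => ?_
    rw [dist_eq_norm, dist_eq_norm, NNReal.coe_one, one_mul]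
    exact lipQ h x y
  have hQc : Continuous Q := hQlip.continuous
  set Z : ℝ := ∫ y : Eu κ, Real.exp (-(A / 2 * Metric.infDist y D ^ 2)) with hZ
  have hU : ∀ x, Uu D A x = A / 2 * ‖Q x‖ ^ 2 + Real.log Z := by
    intro x
    unfold Uu
    rw [hQd]
  -- integrability
  have hnorm : ∀ x : Eu κ, ‖x‖ ^ 2 ≤ 2 * ‖Q x‖ ^ 2 + 2 * R ^ 2 := by
    intro x
    have h1 : ‖x‖ ≤ ‖Q x‖ + ‖P x‖ := by
      have : x = Q x + P x := (sub_add_cancel x (P x)).symm
      calc ‖x‖ = ‖Q x + P x‖ := by rw [← this]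
        _ ≤ _ := norm_add_le _ _
    have h2 := hR (P x) (h.mem x)
    have h3 : ‖x‖ ≤ ‖Q x‖ + R := by linarith
    have h4 : ‖x‖ ^ 2 ≤ (‖Q x‖ + R) ^ 2 := pow_le_pow_left₀ (norm_nonneg _) h3 2
    nlinarith [sq_nonneg (‖Q x‖ - R)]
  have hint0 : Integrable fun x : Eu κ => (1 + ‖A • Q x‖ ^ 2) * Real.exp (-(A / 2 * ‖Q x‖ ^ 2)) := by
    have hg := (gauss_int (κ := κ) (A / 8) (by positivity)).const_mul
      ((1 + 4 * A) * Real.exp (A / 4 * R ^ 2))
    refine hg.mono' ?_ (Eventually.of_forall fun x => ?_)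
    · have : Continuous fun x : Eu κ => (1 + ‖A • Q x‖ ^ 2) * Real.exp (-(A / 2 * ‖Q x‖ ^ 2)) := by
        fun_prop
      exact this.aestronglyMeasurable
    · rw [Real.norm_of_nonneg (by positivity)]
      have h1 : ‖A • Q x‖ ^ 2 = A ^ 2 * ‖Q x‖ ^ 2 := by
        rw [norm_smul, Real.norm_of_nonneg hA.le, mul_pow]
      rw [h1]
      set s : ℝ := ‖Q x‖ ^ 2 with hs
      have hs0 : 0 ≤ s := sq_nonneg _
      have h2 : Real.exp (-(A / 2 * s)) = Real.exp (-(A / 4 * s)) * Real.exp (-(A / 4 * s)) := by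
        rw [← Real.exp_add]
        congr 1
        ring
      have h3 : (1 + A ^ 2 * s) * Real.exp (-(A / 4 * s)) ≤ 1 + 4 * A := by
        have h4 : A / 4 * s * Real.exp (-(A / 4 * s)) ≤ 1 := by
          have h5 : A / 4 * s ≤ Real.exp (A / 4 * s) := by
            have := Real.add_one_le_exp (A / 4 * s)
            linarith
          rw [Real.exp_neg, ← div_eq_mul_inv, div_le_one (Real.exp_pos _)]
          exact h5
        have h6 : Real.exp (-(A / 4 * s)) ≤ 1 := by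
          rw [Real.exp_le_one_iff]
          have : 0 ≤ A / 4 * s := by positivity
          linarith
        have h7 : (1 + A ^ 2 * s) * Real.exp (-(A / 4 * s)) =
            Real.exp (-(A / 4 * s)) + 4 * A * (A / 4 * s * Real.exp (-(A / 4 * s))) := by ring
        rw [h7]
        nlinarith
      have h8 : Real.exp (-(A / 4 * s)) ≤ Real.exp (A / 4 * R ^ 2) *
          Real.exp (-(A / 8 * ‖x‖ ^ 2)) := by
        rw [← Real.exp_add]
        apply Real.exp_le_exp.2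
        have := hnorm x
        nlinarith
      calc (1 + A ^ 2 * s) * Real.exp (-(A / 2 * s))
          = ((1 + A ^ 2 * s) * Real.exp (-(A / 4 * s))) * Real.exp (-(A / 4 * s)) := by
            rw [h2]; ring
        _ ≤ (1 + 4 * A) * (Real.exp (A / 4 * R ^ 2) * Real.exp (-(A / 8 * ‖x‖ ^ 2))) :=
            mul_le_mul h3 h8 (Real.exp_pos _).le (by positivity)
        _ = _ := by ring
  have hint1 : Integrable fun x : Eu κ => Real.exp (-(A / 2 * Metric.infDist x D ^ 2)) := by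
    refine hint0.mono' ?_ (Eventually.of_forall fun x => ?_)
    · have : Continuous fun x : Eu κ => Real.exp (-(A / 2 * Metric.infDist x D ^ 2)) := by
        have := Metric.continuous_infDist_pt D
        fun_prop
      exact this.aestronglyMeasurable
    · rw [Real.norm_of_nonneg (Real.exp_pos _).le, hQd]
      have : 0 ≤ ‖A • Q x‖ ^ 2 := sq_nonneg _
      nlinarith [Real.exp_pos (-(A / 2 * ‖Q x‖ ^ 2))]
  have hZ0 : 0 < Z := integral_exp_pos hint1
  have hexp : ∀ x, Real.exp (-Uu D A x) = Real.exp (-(A / 2 * ‖Q x‖ ^ 2)) * Z⁻¹ := by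
    intro x
    rw [hU, neg_add, Real.exp_add, Real.exp_neg (Real.log Z), Real.exp_log hZ0]
  refine ⟨⟨fun x => A • Q x, hA, ?_, ?_, ?_, ?_⟩, ?_, ?_⟩
  · -- derivative
    intro x
    rw [hasFDerivAt_iff_isLittleO, Asymptotics.isLittleO_iff]
    intro ε hε
    have hev : ∀ᶠ y in 𝓝 x, ‖y - x‖ < 2 * ε / A := by
      have : Tendsto (fun y => ‖y - x‖) (𝓝 x) (𝓝 0) := by
        have h1 : Continuous fun y : Eu κ => ‖y - x‖ := by fun_prop
        have h2 := h1.tendsto x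
        rwa [sub_self, norm_zero] at h2
      exact this.eventually (gt_mem_nhds (by positivity))
    filter_upwards [hev] with y hy
    have h1 := d2_bound h x y
    have h2 : Uu D A y - Uu D A x - (innerSL ℝ (A • Q x)) (y - x) =
        A / 2 * (‖y - P y‖ ^ 2 - ‖x - P x‖ ^ 2 - 2 * ⟪x - P x, y - x⟫_ℝ) := by
      rw [hU, hU, innerSL_apply_apply, real_inner_smul_left]
      ring
    rw [h2, norm_mul, Real.norm_of_nonneg (by positivity), Real.norm_eq_abs]
    calc A / 2 * |‖y - P y‖ ^ 2 - ‖x - P x‖ ^ 2 - 2 * ⟪x - P x, y - x⟫_ℝ|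
        ≤ A / 2 * ‖y - x‖ ^ 2 := mul_le_mul_of_nonneg_left h1 (by positivity)
      _ = (A / 2 * ‖y - x‖) * ‖y - x‖ := by ring
      _ ≤ ε * ‖y - x‖ := by
          apply mul_le_mul_of_nonneg_right _ (norm_nonneg _)
          rw [lt_div_iff₀ hA] at hy
          linarith
  · intro x y
    rw [← smul_sub, norm_smul, Real.norm_of_nonneg hA.le]
    exact mul_le_mul_of_nonneg_left (lipQ h x y) hA.le
  · intro t ht htA x y
    have e : (x - t • A • Q x) - (y - t • A • Q y) =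
        (1 - t * A) • (x - y) + (t * A) • (P x - P y) := by
      simp only [hQ, smul_smul, smul_sub, sub_smul, one_smul]
      abel
    change ‖(x - t • A • Q x) - (y - t • A • Q y)‖ ≤ ‖x - y‖
    rw [e]
    have h1 : 0 ≤ t * A := by positivity
    calc ‖(1 - t * A) • (x - y) + (t * A) • (P x - P y)‖
        ≤ (1 - t * A) * ‖x - y‖ + (t * A) * ‖P x - P y‖ := by
          refine (norm_add_le _ _).trans (le_of_eq ?_)
          rw [norm_smul, norm_smul, Real.norm_of_nonneg (by linarith), Real.norm_of_nonneg h1]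
      _ ≤ (1 - t * A) * ‖x - y‖ + (t * A) * ‖x - y‖ := by
          have := mul_le_mul_of_nonneg_left (lipP h x y) h1
          linarith
      _ = ‖x - y‖ := by ring
  · have h1 := hint0.mul_const Z⁻¹
    refine h1.congr (Eventually.of_forall fun x => ?_)
    change (1 + ‖A • Q x‖ ^ 2) * Real.exp (-(A / 2 * ‖Q x‖ ^ 2)) * Z⁻¹ =
      (1 + ‖A • Q x‖ ^ 2) * Real.exp (-Uu D A x)
    rw [hexp]
    ring
  · unfold EU
    simp only [one_mul, hexp]
    rw [integral_mul_const]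
    have h1 : ∫ x : Eu κ, Real.exp (-(A / 2 * ‖Q x‖ ^ 2)) = Z := by
      rw [hZ]
      simp only [hQd]
    rw [h1, mul_inv_cancel₀ hZ0.ne']
  · refine ⟨convex_univ, fun x _ y _ a b ha hb hab => ?_⟩
    rw [hU, hU, hU, smul_eq_mul, smul_eq_mul]
    have h1 : ‖Q (a • x + b • y)‖ ≤ a * ‖Q x‖ + b * ‖Q y‖ := by
      have h2 : a • P x + b • P y ∈ D := hconv (h.mem x) (h.mem y) ha hb hab
      refine (dist_le h (a • x + b • y) h2).trans ?_
      have e : (a • x + b • y) - (a • P x + b • P y) = a • Q x + b • Q y := by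
        simp only [hQ, smul_sub]
        abel
      rw [e]
      refine (norm_add_le _ _).trans (le_of_eq ?_)
      rw [norm_smul, norm_smul, Real.norm_of_nonneg ha, Real.norm_of_nonneg hb]
    have h3 : ‖Q (a • x + b • y)‖ ^ 2 ≤ a * ‖Q x‖ ^ 2 + b * ‖Q y‖ ^ 2 := by
      have h4 : ‖Q (a • x + b • y)‖ ^ 2 ≤ (a * ‖Q x‖ + b * ‖Q y‖) ^ 2 :=
        pow_le_pow_left₀ (norm_nonneg _) h1 2
      have h5 : (a * ‖Q x‖ + b * ‖Q y‖) ^ 2 + a * b * (‖Q x‖ - ‖Q y‖) ^ 2 =
          (a + b) * (a * ‖Q x‖ ^ 2 + b * ‖Q y‖ ^ 2) := by ring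
      have h6 : 0 ≤ a * b * (‖Q x‖ - ‖Q y‖) ^ 2 := by positivity
      rw [hab, one_mul] at h5
      linarith
    have h7 : a * (A / 2 * ‖Q x‖ ^ 2 + Real.log Z) + b * (A / 2 * ‖Q y‖ ^ 2 + Real.log Z) =
        A / 2 * (a * ‖Q x‖ ^ 2 + b * ‖Q y‖ ^ 2) + (a + b) * Real.log Z := by ring
    rw [h7, hab, one_mul]
    have h8 := mul_le_mul_of_nonneg_left h3 (by positivity : (0 : ℝ) ≤ A / 2)
    linarith

end Pool.Agent.W762.KH
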